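import Pool.Agent.helper63.TI.SpecF

/-! # Project ti, module FDT -/

set_option autoImplicit false

namespace Pool.Agent.TI

open Polynomial NumberField Pool.Agent.GJ Pool.Agent.TK
open Pool.Agent.FJ (VT Om chiO IsFrobO rf rs)
open scoped NumberField Topology

noncomputable section

/-- the isomorphism of the conjugate place -/
def FDT_e (O : ValuationSubring Om) (g : Om ≃+* Om) : O.comap (g : Om →+* Om) ≃+* O where
  toFun x := ⟨g (x : Om), x.2⟩
  invFun y := ⟨g.symm (y : Om), by
    rw [ValuationSubring.mem_comap]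
    show g (g.symm (y : Om)) ∈ O
    rw [RingEquiv.apply_symm_apply]
    exact y.2⟩
  left_inv x := by
    apply Subtype.ext
    exact g.symm_apply_apply _
  right_inv y := by
    apply Subtype.ext
    exact g.apply_symm_apply _
  map_mul' x y := by
    apply Subtype.ext
    exact map_mul g _ _
  map_add' x y := by
    apply Subtype.ext
    exact map_add g _ _

theorem FDT : FDT_stmt := by
  intro O p _ _ φ g hφ
  let E : rf (O.comap (g : Om →+* Om)) ≃+* rf O := IsLocalRing.ResidueField.mapEquiv (FDT_e O g)
  have hE : ∀ x : O.comap (g : Om →+* Om), E (rs _ x) = rs O (FDT_e O g x) := fun x => rfl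
  have hchar : CharP (rf (O.comap (g : Om →+* Om))) p :=
    charP_of_injective_ringHom (f := (E.symm : rf O →+* rf (O.comap (g : Om →+* Om)))) E.symm.injective p
  refine ⟨O.comap (g : Om →+* Om), hchar, ?_⟩
  intro x
  obtain ⟨Y, hY1, hY2⟩ := hφ (FDT_e O g x)
  refine ⟨(FDT_e O g).symm Y, ?_, ?_⟩
  · show g.symm (Y : Om) = g.symm (φ (g (x : Om)))
    rw [hY1]
    rfl
  · apply E.injective
    rw [map_pow, hE, hE, RingEquiv.apply_symm_apply, hY2]

end

end Pool.Agent.TI
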