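import Pool.Agent.helper63.TI.SpecA

/-!
# Row ta:LF1 (MP_3703a7_ag): the Frobenius element for `PL1` and its eigenvalues on `V_l`
-/

set_option autoImplicit false

namespace Pool.Agent.TI

open Polynomial NumberField Pool.Agent.GJ Pool.Agent.TK Pool.Agent.TQ Pool.Agent.TFQ Pool.Agent.TD Pool.Agent.AQ
open Pool.Agent.FJ (VT Om chiO IsFrobO rf rs)
open scoped TensorProduct

noncomputable section

/-- a family concentrated at one place -/
def LF1_f (kk m : ℕ) (n : Fin kk → ℕ) (i : Fin kk) (r : Fin m) (k : Fin (n i) → ℤ) : ∀ i, Fin m → Fin (n i) → ℤ :=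
  Function.update (fun _ _ _ => 0) i (fun r' t => if r' = r then k t else 0)

theorem LF1_f1 (kk m : ℕ) (n : Fin kk → ℕ) (i : Fin kk) (r : Fin m) (k : Fin (n i) → ℤ) (r' : Fin m)
    (t : Fin (n i)) : LF1_f kk m n i r k i r' t = if r' = r then k t else 0 := by
  unfold LF1_f
  rw [Function.update_self]

theorem LF1_f2 (kk m : ℕ) (n : Fin kk → ℕ) (i : Fin kk) (r : Fin m) (k : Fin (n i) → ℤ) (i' : Fin kk)
    (hi : i' ≠ i) (r' : Fin m) (t : Fin (n i')) : LF1_f kk m n i r k i' r' t = 0 := by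
  unfold LF1_f
  rw [Function.update_of_ne hi]

theorem LF1_fb (kk m : ℕ) (n : Fin kk → ℕ) (i : Fin kk) (r : Fin m) (k : Fin (n i) → ℤ) (B : ℤ) (hB : 0 ≤ B)
    (hk : ∀ t, |k t| ≤ B) (i' : Fin kk) (r' : Fin m) (t : Fin (n i')) : |LF1_f kk m n i r k i' r' t| ≤ B := by
  by_cases hi : i' = i
  · subst hi
    rw [LF1_f1]
    split_ifs
    · exact hk t
    · simpa using hB
  · rw [LF1_f2 kk m n i r k i' hi]
    simpa using hB

theorem LF1_fs (kk m : ℕ) (n : Fin kk → ℕ) (i : Fin kk) (r : Fin m) (k : Fin (n i) → ℤ) {Ω : Type} [Field Ω]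
    (y : ∀ i, Fin m → Fin (n i) → Ω) :
    ∑ i', ∑ r', ∑ t, (LF1_f kk m n i r k i' r' t : Ω) * y i' r' t = ∑ t, (k t : Ω) * y i r t := by
  classical
  rw [Finset.sum_eq_single i]
  · rw [Finset.sum_eq_single r]
    · refine Finset.sum_congr rfl fun t _ => ?_
      rw [LF1_f1, if_pos rfl]
    · intro r' _ hr
      refine Finset.sum_eq_zero fun t _ => ?_
      rw [LF1_f1, if_neg hr, Int.cast_zero, zero_mul]
    · intro h
      exact absurd (Finset.mem_univ _) h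
  · intro i' _ hi
    refine Finset.sum_eq_zero fun r' _ => Finset.sum_eq_zero fun t _ => ?_
    rw [LF1_f2 kk m n i r k i' hi, Int.cast_zero, zero_mul]
  · intro h
    exact absurd (Finset.mem_univ _) h

theorem LF1_fp (kk m : ℕ) (n : Fin kk → ℕ) (i : Fin kk) (r : Fin m) (k : Fin (n i) → ℤ) {Ω : Type} [Field Ω]
    (c : ∀ i, Fin m → Fin (n i) → Ω) :
    ∏ i', ∏ r', ∏ t, c i' r' t ^ LF1_f kk m n i r k i' r' t = ∏ t, c i r t ^ k t := by
  classical
  rw [Finset.prod_eq_single i]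
  · rw [Finset.prod_eq_single r]
    · refine Finset.prod_congr rfl fun t _ => ?_
      rw [LF1_f1, if_pos rfl]
    · intro r' _ hr
      refine Finset.prod_eq_one fun t _ => ?_
      rw [LF1_f1, if_neg hr, zpow_zero]
    · intro h
      exact absurd (Finset.mem_univ _) h
  · intro i' _ hi
    refine Finset.prod_eq_one fun r' _ => Finset.prod_eq_one fun t _ => ?_
    rw [LF1_f2 kk m n i r k i' hi, zpow_zero]
  · intro h
    exact absurd (Finset.mem_univ _) h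

/-- the difference of two coordinates -/
def LF1_d (n : ℕ) (t t' : Fin n) : Fin n → ℤ := fun x => (if x = t then 1 else 0) - if x = t' then 1 else 0

theorem LF1_db (n : ℕ) (t t' x : Fin n) : |LF1_d n t t' x| ≤ 1 := by
  unfold LF1_d
  split_ifs <;> simp

theorem LF1_ds (n : ℕ) (t t' : Fin n) {Ω : Type} [Field Ω] (y : Fin n → Ω) :
    ∑ x, (LF1_d n t t' x : Ω) * y x = y t - y t' := by
  classical
  unfold LF1_d
  have h : ∀ x, (((if x = t then 1 else 0) - if x = t' then 1 else 0 : ℤ) : Ω) * y x =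
      (if x = t then y x else 0) - if x = t' then y x else 0 := by
    intro x
    split_ifs <;> simp
  rw [Finset.sum_congr rfl fun x _ => h x, Finset.sum_sub_distrib, Finset.sum_ite_eq' Finset.univ t,
    Finset.sum_ite_eq' Finset.univ t', if_pos (Finset.mem_univ _), if_pos (Finset.mem_univ _)]

theorem LF1_dp (n : ℕ) (t t' : Fin n) {Ω : Type} [Field Ω] (c : Fin n → Ω) (hc : ∀ x, c x ≠ 0) :
    ∏ x, c x ^ LF1_d n t t' x = c t / c t' := by
  classical
  unfold LF1_d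
  have h : ∀ x, c x ^ ((if x = t then 1 else 0) - if x = t' then 1 else 0 : ℤ) =
      (if x = t then c x else 1) / if x = t' then c x else 1 := by
    intro x
    rw [zpow_sub₀ (hc x)]
    split_ifs <;> simp
  rw [Finset.prod_congr rfl fun x _ => h x, Finset.prod_div_distrib, Finset.prod_ite_eq' Finset.univ t,
    Finset.prod_ite_eq' Finset.univ t', if_pos (Finset.mem_univ _), if_pos (Finset.mem_univ _)]

/-- commuting operators preserve the eigenspaces -/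
theorem LF1_eg {q : ℕ} [Fact q.Prime] {V : Type} [AddCommGroup V] [Module ℚ_[q] V] (A Z : V →ₗ[ℚ_[q]] V)
    (h : A ∘ₗ Z = Z ∘ₗ A) (ζ : PadicAlgCl q) (r : ℕ) (w : PadicAlgCl q ⊗[ℚ_[q]] V) (hw : w ∈ eg (bs Z) ζ r) :
    bs A w ∈ eg (bs Z) ζ r := by
  unfold eg at hw ⊢
  rw [LinearMap.mem_ker, LinearMap.sub_apply, LinearMap.smul_apply, LinearMap.id_apply, sub_eq_zero] at hw ⊢
  have h1 : bs A (bs Z w) = bs Z (bs A w) := by
    have h2 : bs A ∘ₗ bs Z = bs Z ∘ₗ bs A := by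
      unfold bs
      rw [← LinearMap.baseChange_comp, ← LinearMap.baseChange_comp, h]
    exact congrArg (fun F => F w) h2
  rw [← h1, hw, map_smul]

theorem LF1_gal {l : ℕ} [Fact l.Prime] (D : Dat l) {σ τ : Om ≃+* Om} (e : σ = τ) (h : D.Fix σ) (h' : D.Fix τ)
    (i : Fin D.k) : galA l h i = galA l h' i := by
  subst e
  rfl

theorem LF1 (hLH1 : LH1_stmt) (hREL : REL_stmt) (hPER : PER_stmt) (hELN : ELN_stmt) (hNRM : NRM_stmt) (hFDN : FDN_stmt) (hNRA : NRA_stmt) (hE4 : FJ.E4_stmt) (hNB1 : TQ.NB1_stmt) (hDD : GJ.DD_stmt) : LF1_stmt := by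
  intro l _ hl2 D hn hInd hSep hPF θ hθ hWC s hs ζ hζ B D0 hD0
  classical
  have hl : l.Prime := Fact.out
  have hl0 : NeZero (l : Om) := ⟨by exact_mod_cast hl.ne_zero⟩
  have hded : ∀ i, IsDedekindDomain (CR Om l (D.μ i) (D.a i)) := fun i => hDD Om l _ _ _
  obtain ⟨b1, b2, b3, b4, b5, b6, b7, b8, b9, b10, b11, b12, b13⟩ := hNB1 l l D
  have hfin : ∀ i, FiniteDimensional ℚ_[l] (VA D l i) := by
    intro i
    obtain ⟨v, b, -⟩ := hθ.free i s hs
    exact Module.Finite.of_basis b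
  have hLat : ∀ i, Lat l (TZ D l i) := by
    intro i
    obtain ⟨T, hT, hT2⟩ := b12 i (hfin i)
    have hTT : T = TZ D l i := by
      ext f
      exact hT2 f
    rw [← hTT]
    exact hT
  have hsl : ((s : Omˣ) : Om) ^ l = 1 := by
    have := (mem_rootsOfUnity l (s : Omˣ)).1 s.2
    rw [← Units.val_pow_eq_pow_val, this, Units.val_one]
  -- the generic operators
  obtain ⟨Y, u, y, hYu, hY0, hYN⟩ := hLH1 l hl2 D hn hInd hSep θ hθ hWC s hs ζ hζ (max B 1)
  have hB1 : ((1 : ℕ) : ℤ) ≤ ((max B 1 : ℕ) : ℤ) := by exact_mod_cast le_max_right B 1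
  have hfam : ∀ (i : Fin D.k) (r : Fin ((l - 1) / 2)) (t t' : Fin (D.n i)), t ≠ t' →
      (∀ i' r' x, |LF1_f D.k ((l - 1) / 2) D.n i r (LF1_d (D.n i) t t') i' r' x| ≤ ((max B 1 : ℕ) : ℤ)) ∧
      ∑ i', ∑ r', ∑ x, (LF1_f D.k ((l - 1) / 2) D.n i r (LF1_d (D.n i) t t') i' r' x : PadicAlgCl l) * y i' r' x ≠ 0 := by
    intro i r t t' hne
    have hb : ∀ i' r' x, |LF1_f D.k ((l - 1) / 2) D.n i r (LF1_d (D.n i) t t') i' r' x| ≤ ((max B 1 : ℕ) : ℤ) :=
      fun i' r' x => LF1_fb _ _ _ _ _ _ _ (by positivity)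
        (fun x => (LF1_db _ _ _ _).trans (by exact_mod_cast le_max_right B 1)) i' r' x
    refine ⟨hb, hY0 _ hb ?_⟩
    intro h
    have h1 := h i r t t'
    rw [LF1_f1, LF1_f1, if_pos rfl, if_pos rfl] at h1
    unfold LF1_d at h1
    rw [if_pos rfl, if_neg hne, if_neg (Ne.symm hne), if_pos rfl] at h1
    norm_num at h1
  have hyinj : ∀ i r, Function.Injective (y i r) := by
    intro i r t t' htt
    by_contra hne
    apply (hfam i r t t' hne).2
    rw [LF1_fs, LF1_ds, htt, sub_self]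
  obtain ⟨ε, N1, hε, hR⟩ := hREL l (Σ i : Fin D.k, Fin ((l - 1) / 2) × Fin (D.n i))
    (fun p => y p.1 p.2.1 p.2.2) (max B 1)
  have hP : ∀ (i : Fin D.k) (r : Fin ((l - 1) / 2)), ∃ m : ℕ, ∀ (N : ℕ) (H : VA D l i →ₗ[ℚ_[l]] VA D l i),
      Nr (TZ D l i) H (Y i) N m →
      (∀ w ∈ ES D l i s ζ ((r : ℕ) + 1), bs H w ∈ ES D l i s ζ ((r : ℕ) + 1)) →
      ∃ (e : Module.Basis (Fin (D.n i)) (PadicAlgCl l) (ES D l i s ζ ((r : ℕ) + 1))) (η : Fin (D.n i) → PadicAlgCl l),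
        (∀ t, bs H (e t : WA D l i) = (1 + (l : PadicAlgCl l) ^ N * η t) • (e t : WA D l i)) ∧
          ∀ t, ‖η t - y i r t‖ < ε := by
    intro i r
    obtain ⟨m, hm⟩ := hPER l (VA D l i) (TZ D l i) (hLat i) (ES D l i s ζ ((r : ℕ) + 1)) (D.n i) (u i r)
      LinearMap.id (Y i) 1 (y i r) Function.injective_id one_ne_zero (by
        intro w _
        rw [one_smul]
        unfold bs
        rw [LinearMap.baseChange_id]
        rfl) (hYu i r) (hyinj i r) ε hε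
    refine ⟨m, fun N H hH hU => ?_⟩
    obtain ⟨e, η, he, hη⟩ := hm N H hH hU
    exact ⟨e, η, fun t => by rw [he t, one_mul], hη⟩
  choose mP hP using hP
  obtain ⟨m, hm⟩ : ∃ m : ℕ, ∀ i r, mP i r ≤ m :=
    ⟨∑ i, ∑ r, mP i r, fun i r =>
      (Finset.single_le_sum (f := fun r => mP i r) (fun _ _ => Nat.zero_le _) (Finset.mem_univ r)).trans
        (Finset.single_le_sum (f := fun i => ∑ r, mP i r) (fun _ _ => Nat.zero_le _) (Finset.mem_univ i))⟩
  obtain ⟨N0, hN0⟩ := hYN m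
  have hNR3 : ∀ i, ∃ N3 : ℕ, ∀ N ≥ N3, ∀ H H' : VA D l i →ₗ[ℚ_[l]] VA D l i, Nr (TZ D l i) H 0 N m →
      Nr (TZ D l i) H' (Y i) N m → Nr (TZ D l i) (H ∘ₗ H') (Y i) N m := by
    intro i
    obtain ⟨N3, h3⟩ := (hNRA l (VA D l i) (TZ D l i) (hLat i)).2.2.1 0 (Y i) m
    refine ⟨N3, fun N hN H H' h h' => ?_⟩
    have h4 := h3 N hN H H' h h'
    rwa [zero_add] at h4
  choose N3 hN3 using hNR3
  obtain ⟨N, hNN0, hNN1, hNN3⟩ : ∃ N : ℕ, N0 ≤ N ∧ N1 ≤ N ∧ ∀ i, N3 i ≤ N := by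
    refine ⟨N0 + N1 + ∑ i, N3 i, by omega, by omega, fun i => ?_⟩
    have := Finset.single_le_sum (f := fun i => N3 i) (fun _ _ => Nat.zero_le _) (Finset.mem_univ i)
    omega
  obtain ⟨h, hh, hhl, hhchi, hhN⟩ := hN0 N hNN0
  have hlN : 0 < ‖(l : PadicAlgCl l) ^ N‖ * ε := by
    have h1 : (l : PadicAlgCl l) ≠ 0 := by exact_mod_cast hl.ne_zero
    have h2 : 0 < ‖(l : PadicAlgCl l) ^ N‖ := norm_pos_iff.2 (pow_ne_zero _ h1)
    positivity
  obtain ⟨K1, hK1⟩ := exists_pow_lt_of_lt_one hlN (Padic.norm_p_lt_one (p := l))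
  have hK : ‖(l : ℚ_[l]) ^ (K1 + (N + m))‖ ≤ ‖(l : PadicAlgCl l) ^ N‖ * ε := by
    refine le_trans ?_ hK1.le
    rw [norm_pow]
    exact pow_le_pow_of_le_one (norm_nonneg _) (Padic.norm_p_lt_one (p := l)).le (Nat.le_add_right _ _)
  obtain ⟨Nl, S1, hS1, hNfix, hNnorm, hNp⟩ := hNRM l l hl2 D hn hPF (K1 + (N + m))
  set S0 : Finset Om := (Finset.univ.biUnion fun i => Finset.univ.image (D.a i)) ∪ nthRootsFinset l (1 : Om)
    with hS0def
  have hS0 : ∀ g : Om ≃+* Om, g ∈ Fx S0 ↔ D.Fix g ∧ ∀ x : Om, x ^ l = 1 → g x = x := by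
    intro g
    have h1 : g ∈ Fx S0 ↔ ∀ x ∈ S0, g x = x := Iff.rfl
    rw [h1]
    constructor
    · intro h2
      refine ⟨fun i j => h2 _ ?_, fun x hx => h2 _ ?_⟩
      · rw [hS0def, Finset.mem_union, Finset.mem_biUnion]
        exact Or.inl ⟨i, Finset.mem_univ _, Finset.mem_image_of_mem _ (Finset.mem_univ _)⟩
      · rw [hS0def, Finset.mem_union]
        exact Or.inr ((mem_nthRootsFinset hl.pos 1).2 hx)
    · rintro ⟨h2, h3⟩ x hx
      rw [hS0def, Finset.mem_union, Finset.mem_biUnion] at hx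
      rcases hx with ⟨i, -, hx⟩ | hx
      · obtain ⟨j, -, rfl⟩ := Finset.mem_image.1 hx
        exact h2 i j
      · exact h3 x ((mem_nthRootsFinset hl.pos 1).1 hx)
  obtain ⟨p, hp, O, hO, F, v, hFS, hFr, hD0', hv, hFv⟩ := hFDN S0 S1 Nl
    (fun g hg => (hS0 g).2 (hNfix g hg)) (fun g hg x hx => hNnorm g ((hS0 g).1 hg).2 x hx) hS1 h
    ((hS0 h).2 ⟨hh, hhl⟩) (l * D0) (Nat.mul_pos hl.pos hD0)
  obtain ⟨hF, hFl⟩ := (hS0 F).1 hFS
  obtain ⟨hFv', hFvl⟩ := (hS0 (F ^ v)).1 (pow_mem hFS v)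
  obtain ⟨hνf, hνl⟩ := hNfix _ hFv
  obtain ⟨hνchi, hνN⟩ := hNp _ hFv
  have hνh : F ^ v * h⁻¹ * h = F ^ v := inv_mul_cancel_right _ _
  have hνhf : D.Fix (F ^ v * h⁻¹ * h) := by
    rw [hνh]
    exact hFv'
  have hgal : ∀ i, galA l hFv' i = galA l hνf i ∘ₗ galA l hh i := by
    intro i
    rw [← b1 _ _ hνf hh hνhf i]
    exact LF1_gal D hνh.symm _ _ i
  -- the power of the Frobenius element is close to `1 + l^N Y`
  have hclose : ∀ i, Nr (TZ D l i) (galA l hFv' i) (Y i) N m := by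
    intro i
    rw [hgal i]
    refine hN3 i N (hNN3 i) _ _ ?_ (hhN i)
    intro t ht
    obtain ⟨f', hf', he⟩ := hνN hνf i t ht
    refine ⟨(l : ℚ_[l]) ^ K1 • f', ?_, ?_⟩
    · have h1 : (l : ℚ_[l]) ^ K1 • f' = (l ^ K1 : ℕ) • f' := by
        rw [← Nat.cast_smul_eq_nsmul ℚ_[l]]
        push_cast
        rfl
      rw [h1]
      exact (TZ D l i).nsmul_mem hf' _
    · rw [he, LinearMap.zero_apply, smul_zero, add_zero, smul_smul, ← pow_add, Nat.add_comm (N + m) K1]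
  have hpres : ∀ i (r : Fin ((l - 1) / 2)), ∀ w ∈ ES D l i s ζ ((r : ℕ) + 1),
      bs (galA l hFv' i) w ∈ ES D l i s ζ ((r : ℕ) + 1) := fun i r w hw =>
    LF1_eg _ _ (b6 _ hFv' i s (hFvl _ hsl)) ζ _ w hw
  have hpresF : ∀ i (r : Fin ((l - 1) / 2)), ∀ w ∈ ES D l i s ζ ((r : ℕ) + 1),
      bs (galA l hF i) w ∈ ES D l i s ζ ((r : ℕ) + 1) := fun i r w hw =>
    LF1_eg _ _ (b6 _ hF i s (hFl _ hsl)) ζ _ w hw
  have hE : ∀ (i : Fin D.k) (r : Fin ((l - 1) / 2)), ∃ (e : Module.Basis (Fin (D.n i)) (PadicAlgCl l) (ES D l i s ζ ((r : ℕ) + 1)))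
      (η : Fin (D.n i) → PadicAlgCl l),
        (∀ t, bs (galA l hFv' i) (e t : WA D l i) = (1 + (l : PadicAlgCl l) ^ N * η t) • (e t : WA D l i)) ∧
          ∀ t, ‖η t - y i r t‖ < ε := by
    intro i r
    exact hP i r N _ ((hNRA l (VA D l i) (TZ D l i) (hLat i)).1 _ _ _ _ _ (hm i r) (hclose i)) (hpres i r)
  choose e η he hη using hE
  -- the eigenvalues are not zero
  have hinv : ∀ i, ∀ w : WA D l i, bs (galA l hFv' i) w = 0 → w = 0 := by
    intro i w hw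
    obtain ⟨hi1, -⟩ := (hS0 (F ^ v)⁻¹).1 (inv_mem (pow_mem hFS v))
    have hi2 : D.Fix ((F ^ v)⁻¹ * F ^ v) := by
      rw [inv_mul_cancel]
      exact fun _ _ => rfl
    have h1 := b1 _ _ hi1 hFv' hi2 i
    have h2 : galA l hi2 i = LinearMap.id := by
      rw [LF1_gal D (inv_mul_cancel (F ^ v)) hi2 (fun _ _ => rfl) i]
      exact b2 _ i
    have h3 : bs (galA l hi1 i) (bs (galA l hFv' i) w) = w := by
      have h4 : bs (galA l hi1 i) ∘ₗ bs (galA l hFv' i) = LinearMap.id := by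
        unfold bs
        rw [← LinearMap.baseChange_comp, ← h1, h2, LinearMap.baseChange_id]
      exact congrArg (fun G => G w) h4
    rw [← h3, hw, map_zero]
  have hμ0 : ∀ i r t, 1 + (l : PadicAlgCl l) ^ N * η i r t ≠ 0 := by
    intro i r t h0
    have h1 := he i r t
    rw [h0, zero_smul] at h1
    have h2 := hinv i _ h1
    exact (e i r).ne_zero t (Subtype.ext h2)
  have hR' : ∀ c : PadicAlgCl l, ‖c - 1‖ ≤ ‖(l : PadicAlgCl l) ^ N‖ * ε →
      ∀ (k : ∀ i, Fin ((l - 1) / 2) → Fin (D.n i) → ℤ) (c' : ℤ) (M : ℕ), (∀ i r t, |k i r t| ≤ ((max B 1 : ℕ) : ℤ)) →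
      0 < M → ∑ i, ∑ r, ∑ t, (k i r t : PadicAlgCl l) * y i r t ≠ 0 →
      ((∏ i, ∏ r, ∏ t, (1 + (l : PadicAlgCl l) ^ N * η i r t) ^ k i r t) * c ^ c') ^ M ≠ 1 := by
    intro c hc k c' M hk hM hsum
    have h1 := hR N hNN1 (fun p => η p.1 p.2.1 p.2.2) c (fun p => hη _ _ _) hc (fun p => k p.1 p.2.1 p.2.2) c' M
      (fun p => hk _ _ _) hM
    rw [Fintype.sum_sigma, Fintype.prod_sigma] at h1
    simp only [Fintype.sum_prod_type, Fintype.prod_prod_type] at h1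
    exact h1 hsum
  have hμinj : ∀ i r, Function.Injective fun t => 1 + (l : PadicAlgCl l) ^ N * η i r t := by
    intro i r t t' htt
    by_contra hne
    obtain ⟨h1, h2⟩ := hfam i r t t' hne
    have h3 := hR' 1 (by rw [sub_self, norm_zero]; exact hlN.le) _ 0 1 h1 one_pos h2
    apply h3
    rw [zpow_zero, mul_one, pow_one, LF1_fp D.k ((l - 1) / 2) D.n i r (LF1_d (D.n i) t t')
      (fun i r t => 1 + (l : PadicAlgCl l) ^ N * η i r t),
      LF1_dp (D.n i) t t' (fun t => 1 + (l : PadicAlgCl l) ^ N * η i r t) (hμ0 i r)]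
    have htt' : 1 + (l : PadicAlgCl l) ^ N * η i r t = 1 + (l : PadicAlgCl l) ^ N * η i r t' := htt
    rw [htt']
    exact div_self (hμ0 i r t')
  have hC : ∀ i r, ∃ c : Fin (D.n i) → PadicAlgCl l, ∀ t, c t ^ v = 1 + (l : PadicAlgCl l) ^ N * η i r t ∧
      bs (galA l hF i) (e i r t : WA D l i) = c t • (e i r t : WA D l i) := by
    intro i r
    refine hELN l (VA D l i) (galA l hF i) v _ (D.n i) (e i r) _ (hμinj i r) (hpresF i r) fun t => ?_
    have h1 := b3 F hF v hFv' i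
    rw [← h1]
    exact he i r t
  choose c hc using hC
  refine ⟨p, hp, O, hO, F, hF, e, c, hFl, hFr, ?_, ?_, fun i r t => (hc i r t).2, ?_⟩
  · intro h0
    apply hD0'
    rw [Nat.cast_mul, h0, mul_zero]
  · intro i r t h0
    have h1 := (hc i r t).1
    rw [h0, zero_pow hv.ne'] at h1
    exact hμ0 i r t h1.symm
  · intro x c' M hx hM hrel
    by_contra hcon
    push Not at hcon
    have hx' : ∀ i r t, |x i r t| ≤ ((max B 1 : ℕ) : ℤ) := fun i r t =>
      (hx i r t).trans (by exact_mod_cast le_max_left B 1)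
    have hsum : ∑ i, ∑ r, ∑ t, (x i r t : PadicAlgCl l) * y i r t ≠ 0 := by
      refine hY0 x hx' ?_
      intro h1
      obtain ⟨i, r, t, t', h2⟩ := hcon
      exact h2 (h1 i r t t')
    have hlO : ((l : ℕ) : rf O) ≠ 0 := by
      intro h0
      apply hD0'
      rw [Nat.cast_mul, h0, zero_mul]
    have hpv : (p : ℚ_[l]) ^ v = chiO l (F ^ v * h⁻¹) := by
      have h1 : chiO l (F ^ v) = chiO l (F ^ v * h⁻¹) * chiO l h := by
        rw [← b8, hνh]
      rw [hhchi, mul_one, b10, hE4 O F p l hFr hlO] at h1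
      exact h1
    have hpn : ‖(p : PadicAlgCl l) ^ v - 1‖ ≤ ‖(l : PadicAlgCl l) ^ N‖ * ε := by
      have h1 : (p : PadicAlgCl l) ^ v - 1 = (((p : ℚ_[l]) ^ v - 1 : ℚ_[l]) : PadicAlgCl l) := by
        push_cast
        rfl
      rw [h1, PadicAlgCl.norm_extends, hpv]
      exact hνchi.trans hK
    have h5 := hR' ((p : PadicAlgCl l) ^ v) hpn x c' M hx' hM hsum
    apply h5
    have h6 : (∏ i, ∏ r, ∏ t, (1 + (l : PadicAlgCl l) ^ N * η i r t) ^ x i r t) =
        (∏ i, ∏ r, ∏ t, c i r t ^ x i r t) ^ v := by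
      rw [← Finset.prod_pow]
      refine Finset.prod_congr rfl fun i _ => ?_
      rw [← Finset.prod_pow]
      refine Finset.prod_congr rfl fun r _ => ?_
      rw [← Finset.prod_pow]
      refine Finset.prod_congr rfl fun t _ => ?_
      rw [← (hc i r t).1, ← zpow_natCast, ← zpow_natCast, ← zpow_mul, ← zpow_mul, mul_comm]
    have h7 : ((p : PadicAlgCl l) ^ v) ^ c' = ((p : PadicAlgCl l) ^ c') ^ v := by
      rw [← zpow_natCast, ← zpow_natCast, ← zpow_mul, ← zpow_mul, mul_comm]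
    rw [h6, h7, ← mul_pow, ← pow_mul, mul_comm v M, pow_mul, hrel, one_pow]

end

end Pool.Agent.TI
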