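import Pool.Agent.helper63.TI.SpecA

/-!
# Row ta:PL1 (MP_3703a7_ag): a Frobenius element with independent eigenvalues
-/

set_option autoImplicit false

namespace Pool.Agent.TI

open Polynomial NumberField Pool.Agent.GJ Pool.Agent.TK Pool.Agent.TQ Pool.Agent.TFQ Pool.Agent.TD Pool.Agent.AQ
open Pool.Agent.FJ (VT Om chiO IsFrobO rf rs)
open scoped TensorProduct

noncomputable section

/-- families concentrated at one place -/
theorem PL1_fam (kk m : ℕ) (n : Fin kk → ℕ) (hn : ∀ i, 0 < n i) {Ω : Type} [Field Ω]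
    (c : ∀ i, Fin m → Fin (n i) → Ω) (B : ℕ)
    (P : Ω) (hrel : ∀ (x : ∀ i, Fin m → Fin (n i) → ℤ) (c' : ℤ) (M : ℕ), (∀ i r t, |x i r t| ≤ B) → 0 < M →
      ((∏ i, ∏ r, ∏ t, c i r t ^ x i r t) * P ^ c') ^ M = 1 → ∀ i r t t', x i r t = x i r t')
    (i : Fin kk) (r : Fin m) (k : Fin (n i) → ℤ) (hk : ∀ t, |k t| ≤ B) (hs : ∑ t, k t = 0)
    (hp : ∏ t, c i r t ^ k t = 1) : k = 0 := by
  classical
  have h1 := hrel (Function.update (fun _ _ _ => 0) i (fun r' t => if r' = r then k t else 0)) 0 1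
  have h2 : ∀ r' t, Function.update (fun (i : Fin kk) (_ : Fin m) (_ : Fin (n i)) => (0 : ℤ)) i
      (fun r' t => if r' = r then k t else 0) i r' t = if r' = r then k t else 0 := by
    intro r' t
    rw [Function.update_self]
  have h3 : ∀ i', i' ≠ i → ∀ r' t, Function.update (fun (i : Fin kk) (_ : Fin m) (_ : Fin (n i)) => (0 : ℤ)) i
      (fun r' t => if r' = r then k t else 0) i' r' t = 0 := by
    intro i' hi r' t
    rw [Function.update_of_ne hi]
  have h4 := h1 (by
    intro i' r' t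
    by_cases hi : i' = i
    · subst hi
      rw [h2]
      split_ifs
      · exact hk t
      · simp
    · rw [h3 i' hi]
      simp) one_pos (by
    rw [zpow_zero, mul_one, pow_one]
    rw [Finset.prod_eq_single i]
    · rw [Finset.prod_eq_single r]
      · rw [← hp]
        refine Finset.prod_congr rfl fun t _ => ?_
        rw [h2, if_pos rfl]
      · intro r' _ hr
        refine Finset.prod_eq_one fun t _ => ?_
        rw [h2, if_neg hr, zpow_zero]
      · intro h
        exact absurd (Finset.mem_univ _) h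
    · intro i' _ hi
      refine Finset.prod_eq_one fun r' _ => Finset.prod_eq_one fun t _ => ?_
      rw [h3 i' hi, zpow_zero]
    · intro h
      exact absurd (Finset.mem_univ _) h) i r
  have h5 : ∀ t t', k t = k t' := by
    intro t t'
    have h6 := h4 t t'
    rw [h2, h2, if_pos rfl, if_pos rfl] at h6
    exact h6
  funext t
  have h7 : ∑ t', k t' = (n i : ℤ) * k t := by
    rw [Finset.sum_congr rfl fun t' _ => h5 t' t, Finset.sum_const, Finset.card_univ,
      Fintype.card_fin, nsmul_eq_mul]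
  rw [hs] at h7
  have h8 : (n i : ℤ) ≠ 0 := by
    have := hn i
    omega
  rcases mul_eq_zero.1 h7.symm with h | h
  · exact absurd h h8
  · exact h

theorem PL1 (hTRD : TRD_stmt) (hLF1 : LF1_stmt) : PL1_stmt := by
  intro l q _ _ hl D hn hInd hSep hPF θ hθ hWC B jq s hs
  classical
  obtain ⟨w, D0, hw, hD0, hT⟩ := hTRD l q hl D hn
  obtain ⟨jl⟩ : Nonempty (Om →+* PadicAlgCl l) := by
    have h1 : Algebra.IsAlgebraic ℚ Om := AlgebraicClosure.isAlgebraic ℚ
    exact ⟨(IsAlgClosed.lift : Om →ₐ[ℚ] PadicAlgCl l).toRingHom⟩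
  have hζ : IsPrimitiveRoot (jl ((s : Omˣ) : Om)) l := hs.map_of_injective jl.injective
  obtain ⟨p, hp, O, hO, F, hF, e, c, hF1, hFr, hD0', hc0, he, hrel⟩ :=
    hLF1 l hl D hn hInd hSep hPF θ hθ hWC s hs (jl ((s : Omˣ) : Om)) hζ (max B w) D0 hD0
  obtain ⟨hchl, hchq, hT2⟩ := hT p 1 O F hF one_pos (by rw [pow_one]; exact hFr) hF1 hD0'
  have hkey : ∀ (i : Fin D.k) (r : Fin ((l - 1) / 2)), ∃ (b : Fin (D.n i) → Om)
      (v' : Module.Basis (Fin (D.n i)) (PadicAlgCl q) (ES D q i s (jq ((s : Omˣ) : Om)) ((r : ℕ) + 1))),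
      (∀ t, jl (b t) = c i r t) ∧ ∀ t, bs (galA q hF i) (v' t : WA D q i) = jq (b t) • (v' t : WA D q i) := by
    intro i r
    refine hT2 s hs jl jq i ((r : ℕ) + 1) (Nat.succ_pos _) ?_ (e i r) (c i r) (he i r) ?_
    · have := r.2
      omega
    · intro k hk hks hkp
      exact PL1_fam D.k ((l - 1) / 2) D.n hn c (max B w) (p : PadicAlgCl l)
        (by exact_mod_cast hrel) i r k
        (fun t => (hk t).trans (by exact_mod_cast le_max_right B w)) hks hkp
  choose b v' hb hv' using hkey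
  refine ⟨F, hF, p, v', fun i r t => jq (b i r t), hF1, hp.out.pos, ?_, ?_, hv', ?_⟩
  · rw [hchq, pow_one]
  · intro i r t h
    apply hc0 i r t
    rw [← hb i r t]
    rw [map_eq_zero] at h
    rw [h, map_zero]
  · intro x c' M hx hc' hM hprod
    refine hrel x c' M (fun i r t => (hx i r t).trans (by exact_mod_cast le_max_left B w)) hM ?_
    have h1 : jq (((∏ i, ∏ r, ∏ t, b i r t ^ x i r t) * (p : Om) ^ c') ^ M) = 1 := by
      rw [← hprod]
      simp only [map_pow, map_mul, map_prod, map_zpow₀, map_natCast]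
    have h2 : ((∏ i, ∏ r, ∏ t, b i r t ^ x i r t) * (p : Om) ^ c') ^ M = 1 := by
      rw [← map_one jq] at h1
      exact jq.injective h1
    have h3 := congrArg jl h2
    simp only [map_pow, map_mul, map_prod, map_zpow₀, map_natCast, hb, map_one] at h3
    exact h3

end

end Pool.Agent.TI
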